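import Pool.Agent.L0h34.CW.Sub

/-!
# Torsion subgroups of co-context-free groups are locally finite

Lehnert's question and the conjecture that Thompson's group `V` is a universal co-context-free group
predict that co-context-free groups share the properties of the subgroups of `V`.  One of them is
the theorem of Röver that finitely generated torsion subgroups of `V` are finite.  We prove this for
all co-context-free groups: every finitely generated torsion subgroup of a co-context-free group is
finite.  So the torsion subgroups of co-context-free groups (in particular of a universal
co-context-free group, if there is one) are locally finite, and no infinite finitely generated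
torsion group (Grigorchuk, Gupta-Sidki, Burnside, ...) is a candidate for a co-context-free group
which does not embed in `V`.

Outline of the proof.  Let `G` be a finitely generated infinite torsion group and let its co-word
problem be generated by a context-free grammar.  For a nonterminal `B` the pairs `(u, v)` with
`B ⇒* u B v` form a *subgroup* `H_B` of `G × Gᵒᵖ`, because `G` is torsion.  Let `N₁`, `U₁` and `N₂`,
`U₂` be its intersections with and projections to the factors.  If a word `w = x b y` is derived with
`B` at `b`, then `w` is not in `x N₁ x⁻¹` and not in `(xb) N₂ (xb)⁻¹`.  For a finitely generated infinite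
subgroup `H = ⟨Δ⟩` we look at derivations of words of `Δ*` all of whose nodes are thin: the orbits of
`H` on the cosets of `N₁`, `N₂` are infinite.  Going up through the nonterminals we replace `Δ` by
finite sets of words of `Δ*`, which still generate infinite groups, so that the thin yields become
bounded: excursions leave finite parts of infinite Schreier graphs; if the orbits of the `Uᵢ` are
finite, words with locally geodesic images modulo the `Nᵢ` are found by a graph of words, and finally
words with long periodic parts, whose lengths form the pattern 1, 2, 3, 1, 2, 3, ..., cannot be read
forwards and backwards at the same time.  In the end the derivations of the words of `Δ*` with values in a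
small subgroup of finite index of `H` have bounded yields, a contradiction.
-/

set_option autoImplicit false

namespace Pool.Agent.Results.MP_0f943d_al.TorsionSubgroups

open Pool.Agent.L0h34.CW

/-- `G` is (finitely generated and) co-context-free: for a finite family of generators (as a monoid)
the language of the words with nontrivial value is context-free. -/
def CoCF (G : Type) [Group G] : Prop :=
  ∃ n : ℕ, ∃ f : Fin n → G,
    Function.Surjective (fun w : List (Fin n) => (w.map f).prod) ∧
    Language.IsContextFree
      (({w : List (Fin n) | (w.map f).prod ≠ 1} : Set (List (Fin n))) : Language (Fin n))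

/-- Every element of `H` has finite order. -/
def IsTorsionGroup (H : Type) [Group H] : Prop := ∀ h : H, ∃ n : ℕ, 0 < n ∧ h ^ n = 1

/-- **Finitely generated torsion subgroups of co-context-free groups are finite.**
Let `G` be co-context-free.  (1) Every finitely generated torsion group which embeds in `G` is
finite.  (2) The torsion subgroups of `G` are locally finite.  (3) Every finite subset of `G` generates
a finite group or a group with an element of infinite order.  (4) If `G` is infinite, then it has
an element of infinite order. -/
theorem result (G : Type) [Group G] (hG : CoCF G) :
    (∀ (H : Type) [Group H] [Group.FG H] (φ : H →* G), Function.Injective φ →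
      IsTorsionGroup H → Finite H) ∧
    (∀ T : Subgroup G, (∀ g ∈ T, ∃ n : ℕ, 0 < n ∧ g ^ n = 1) → ∀ S : Set G, S.Finite →
      S ⊆ T → (Subgroup.closure S : Set G).Finite) ∧
    (∀ S : Set G, S.Finite → (Subgroup.closure S : Set G).Finite ∨
      ∃ g ∈ Subgroup.closure S, ∀ n : ℕ, 0 < n → g ^ n ≠ 1) ∧
    (Infinite G → ∃ g : G, ∀ n : ℕ, 0 < n → g ^ n ≠ 1) := by
  obtain ⟨n, f, hf, hcf⟩ := hG
  have h1 : ∀ (H : Type) [Group H] [Group.FG H] (φ : H →* G), Function.Injective φ →
      IsTorsionGroup H → Finite H :=
    fun H _ _ φ hφ ht => finite_of_embeds f hf hcf H φ hφ ht
  have h3 : ∀ S : Set G, S.Finite → (Subgroup.closure S : Set G).Finite ∨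
      ∃ g ∈ Subgroup.closure S, ∀ n : ℕ, 0 < n → g ^ n ≠ 1 := by
    intro S hS
    by_cases h : ∃ g ∈ Subgroup.closure S, ∀ n : ℕ, 0 < n → g ^ n ≠ 1
    · exact Or.inr h
    · left
      push Not at h
      have hfg : Group.FG (Subgroup.closure S) := by
        rw [Group.fg_iff_subgroup_fg]
        exact (Subgroup.fg_iff _).2 ⟨S, rfl, hS⟩
      have h2 := h1 (Subgroup.closure S) (Subgroup.closure S).subtype
        (Subgroup.subtype_injective _) (by
          rintro ⟨g, hg⟩
          obtain ⟨n, hn, hn'⟩ := h g hg
          exact ⟨n, hn, Subtype.ext hn'⟩)
      exact Set.toFinite _
  refine ⟨h1, ?_, h3, ?_⟩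
  · intro T hT S hS hST
    rcases h3 S hS with h | ⟨g, hg, hg'⟩
    · exact h
    · obtain ⟨n, hn, hn'⟩ := hT g ((Subgroup.closure_le T).2 hST hg)
      exact absurd hn' (hg' n hn)
  · intro hinf
    by_contra hcon
    push Not at hcon
    have : Finite G := all_main (Fin n) G hcon f hf hcf
    exact not_finite G

end Pool.Agent.Results.MP_0f943d_al.TorsionSubgroups
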